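import Mathlib
import Pool.Agent.H61.MaxIdeal

/-!
There is a locally compact group `G` and a maximal left ideal `J` of the measure algebra `M(G)`
which is weak*-closed but not finitely generated.

`M(G)` is the space `MeasureTheory.ComplexMeasure G` of complex Borel measures on `G`; the group
below is second countable, so all of them are regular, which is part of the statement.  The
definitions `cint` (integral), `conv` (convolution), `IsLeftIdeal`, `IsWeakStarClosed`, `IsFinGen`
are in `Pool/Agent/H61/MeasAlg.lean`.
-/

set_option autoImplicit false

open MeasureTheory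

namespace Pool.Agent.Results.MP_6afee3_an.MaximalNotFG

open Pool.Agent.H61

theorem result :
    ∃ (G : Type) (_ : Group G) (_ : TopologicalSpace G) (_ : IsTopologicalGroup G)
      (_ : LocallyCompactSpace G) (_ : T2Space G) (_ : SecondCountableTopology G)
      (_ : MeasurableSpace G) (_ : BorelSpace G),
      (∀ μ : ComplexMeasure G, μ.variation.Regular) ∧
      ∃ J : Submodule ℂ (ComplexMeasure G),
        IsLeftIdeal J ∧ IsWeakStarClosed (J : Set (ComplexMeasure G)) ∧
        J ≠ ⊤ ∧
        (∀ J' : Submodule ℂ (ComplexMeasure G), IsLeftIdeal J' → J < J' → J' = ⊤) ∧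
        ¬ IsFinGen J := by
  refine ⟨RG, inferInstance, inferInstance, inferInstance, inferInstance, inferInstance,
    inferInstance, inferInstance, inferInstance, ?_, JPhi, isLeftIdeal_JPhi,
    isWeakStarClosed_JPhi, ?_, maximal_JPhi, not_isFinGen_JPhi⟩
  · intro μ
    have : TopologicalSpace.MetrizableSpace RG :=
      TopologicalSpace.metrizableSpace_of_t3_secondCountable RG
    infer_instance
  · intro h
    exact dirac_notMem (h ▸ Submodule.mem_top)

end Pool.Agent.Results.MP_6afee3_an.MaximalNotFG
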